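import Mathlib
import Pool.Agent.V11333.RandomSets

/-!
# MP_aabed8_pr: the strong law for random convex sets with a common expectation fails in `ℓ²`
-/

set_option autoImplicit false

open MeasureTheory ProbabilityTheory Filter Topology Pointwise

namespace Pool.Agent.Results.MP_aabed8_pr.NoCommonExpectationLaw

open Pool.Agent.V11333.RandomSets

/-- Disproof of Q1 for the B-convex space `ℓ²`: there are a probability space and an independent
sequence of random sets inside the unit ball, all with the same expectation `U`, whose averages do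
not converge to `U`, for any `ω`. -/
theorem result : BConvex L2 ∧
    ∃ (Ω : Type) (_ : MeasurableSpace Ω) (μ : Measure Ω) (_ : IsProbabilityMeasure μ)
      (U : BC L2) (Ψ : ℕ → Ω → BC L2),
      (∀ n ω, ∀ x ∈ (Ψ n ω).carrier, ‖x‖ ≤ 1) ∧
      (∀ n, IsRandomSet (Ψ n)) ∧ (∀ n, HasExpectation μ (Ψ n) U) ∧ IndependentSets μ Ψ ∧
      ∀ ω, ¬ Tendsto (fun n => Metric.hausdorffDist (average (fun i => Ψ i ω) n) U.carrier)
        atTop (𝓝 0) := by
  refine ⟨bconvex_inner _, ?_⟩
  obtain ⟨Ω, mΩ, μ, hμ, U, Ψ, hc, h1, h2, h3, h4, h5, h6, h7⟩ := core 1 one_pos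
  exact ⟨Ω, mΩ, μ, hμ, U, Ψ, h3, h4, h5, h6, fun ω =>
    not_tendsto (fun i => Ψ i ω) U h2 (fun i => h3 i ω) (fun m => h7 ω m)⟩

end Pool.Agent.Results.MP_aabed8_pr.NoCommonExpectationLaw
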